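import Pool.Agent.H69.P4.Geo
import Pool.Agent.H14.P5.Num

/-!
# P5: the geometry of a cell, from the pieces

`geo_of`: paths (`Pool.P4.PthStmt`), closed frames (`Pool.P4.CfrStmt`), lines over a closed frame
(`LinStmt`), own sheets (`OwnStmt`), closed leaves (`LeafStmt`) and deeper contexts (`DepStmt`) give
the geometry (`GeoStmt`).
-/

set_option autoImplicit false

namespace Pool.P5

open Finset Real MvPolynomial
open Pool.Agent.H49.Ent Pool.Agent.H32.Dense Pool.STK Pool.STAT Pool.MIC.Frm Pool.MIC7 Pool.FRM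
open Pool.GSD
open Pool.BFL (Pb)
open Pool.P4 (t0 rt pp PthC FraC bb ze zt z0 be cl1 dg dgp Ry cb LLC tq GoodS FrP exp_mz)

/-- A place needs at least two places. -/
theorem Plc.two {n : ℕ} {gam : ℕ → ℝ} {y r r2 r' r'' a M i j : ℕ}
    (h : Plc n gam y r r2 r' r'' a M i j) : 2 ≤ M := by
  have h1 := h.stp.er''
  have h2 := h.y1
  have h3 := h.i1
  have h4 := h.i2
  omega

/-- A larger constant. -/
theorem SheetA.mono {D : NDat2} {n z i j r r' y : ℕ} {gam : ℕ → ℝ} {C C' : ℝ}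
    {P : D.Γ × D.Γ → ℕ → PN} {S : D.Ω → ℕ → ℕ → ℝ} {ω : D.Ω}
    (h : SheetA D n z i j r r' y gam C P S ω) (hC : C ≤ C') :
    SheetA D n z i j r r' y gam C' P S ω := by
  intro Bx hBx b hb0 hb hbu u hu
  refine (h Bx hBx b hb0 hb hbu u hu).trans (div_le_div_of_nonneg_right ?_ (by positivity))
  have h0 : (0 : ℝ) ≤ z := Nat.cast_nonneg z
  exact exp_le_exp.2
    (mul_le_mul_of_nonneg_right (mul_le_mul_of_nonneg_right hC (by linarith)) h0)

section

variable {D : NDat2} {J w i j r : ℕ} {P : D.Γ × D.Γ → ℕ → PN} {ω ω' : D.Ω}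

/-- The coordinates of a sample with the context of `ω`, over the frame of `ω`. -/
theorem zt_cst (h : bb D i j r ω = bb D i j r ω') (t : ℝ) (l : ℕ) :
    zt D i j r P t ω' l = zt D i j r (fun _ => P (bb D i j r ω)) t ω' l := by
  unfold zt
  rw [h]

theorem z0_cst (h : bb D i j r ω = bb D i j r ω') (l : ℕ) :
    z0 D J w i j r P ω' l = z0 D J w i j r (fun _ => P (bb D i j r ω)) ω' l := by
  unfold z0
  exact zt_cst h _ l

theorem b2_cst (h : bb D i j r ω = bb D i j r ω') (l : ℕ) :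
    b2 D J w i j r P ω' l = b2 D J w i j r (fun _ => P (bb D i j r ω)) ω' l := by
  unfold b2
  rw [zt_cst (P := P) h, zt_cst (P := P) h, z0_cst (P := P) h]

theorem b1_cst (h : bb D i j r ω = bb D i j r ω') (l : ℕ) :
    b1 D J w i j r P ω' l = b1 D J w i j r (fun _ => P (bb D i j r ω)) ω' l := by
  unfold b1 be
  rw [zt_cst (P := P) h, z0_cst (P := P) h, b2_cst (P := P) h]

end

/-- **The geometry of a cell.** -/
theorem geo_of (h1 : Pool.P4.PthStmt) (h2 : Pool.P4.CfrStmt) (h3 : LinStmt) (h4 : OwnStmt)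
    (hL : LeafStmt) (h5 : DepStmt) : GeoStmt := by
  classical
  intro n K lam gam C₁ hn hC₁ hlam
  obtain ⟨Kc, Cc, hKc, hCc, hcfr⟩ := h2 n K lam gam C₁ hn hC₁
  obtain ⟨Kf, Cf, hKf, hCf, hfra⟩ := frm_ev n K lam gam C₁ hC₁
  obtain ⟨K', hK'⟩ : ∃ K', K' = max Kc Kf := ⟨_, rfl⟩
  obtain ⟨C, hC⟩ : ∃ C, C = max Cc Cf := ⟨_, rfl⟩
  have hC0 : 0 ≤ C := by rw [hC]; exact hCc.trans (le_max_left _ _)
  obtain ⟨C', hC', hlin⟩ := h3 n K K' lam gam C₁ C hn hC₁ hC0 hlam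
  obtain ⟨C'', hC'', hown⟩ := h4 n K K' lam gam C₁ C hn hC₁ hC0 hlam
  obtain ⟨Cd, hCd, hdep⟩ := h5 n K K' lam gam C₁ C hn hC₁ hC0 hlam
  obtain ⟨CL, hCL⟩ : ∃ CL, CL = max C C'' := ⟨_, rfl⟩
  have hL1 : C ≤ CL := by rw [hCL]; exact le_max_left _ _
  have hL2 : C'' ≤ CL := by rw [hCL]; exact le_max_right _ _
  obtain ⟨C3, hC3, hleaf⟩ := hL n K K' lam gam C₁ CL hn hC₁ (hC0.trans hL1) hlam
  obtain ⟨Cg, hCg⟩ : ∃ Cg, Cg = max (max CL Cd) (max C' C3) := ⟨_, rfl⟩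
  have hgL : CL ≤ Cg := by rw [hCg]; exact (le_max_left _ _).trans (le_max_left _ _)
  have hg1 : C ≤ Cg := hL1.trans hgL
  have hg2 : C' ≤ Cg := by rw [hCg]; exact (le_max_left _ _).trans (le_max_right _ _)
  have hg3 : C'' ≤ Cg := hL2.trans hgL
  have hg4 : Cd ≤ Cg := by rw [hCg]; exact (le_max_right _ _).trans (le_max_left _ _)
  have hg5 : C3 ≤ Cg := by rw [hCg]; exact (le_max_right _ _).trans (le_max_right _ _)
  refine ⟨K', Cg, hC'.trans hg2, ?_⟩
  intro y r r2 r' r'' a M e he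
  rcases Nat.lt_or_ge M 2 with hM | hM
  · refine ⟨1, 0, one_pos, ?_⟩
    intro J a₀ w₀ z i j D q _ hP
    have := hP.two
    omega
  obtain ⟨κ₁, z₁, hκ₁, hpth⟩ := h1 n K M lam gam C₁ (e / 3) hC₁ (by positivity)
  obtain ⟨κ₂, z₂, hκ₂, hcfr⟩ := hcfr M (e / 3) hM (by positivity)
  obtain ⟨κ₃, z₃, hκ₃, hfra⟩ := hfra M (e / 3) hM (by positivity)
  obtain ⟨z₄, hlin⟩ := hlin y r r2 r' r'' a M
  obtain ⟨z₅, hown⟩ := hown y r r2 r' r'' a M
  obtain ⟨z₆, hdep⟩ := hdep y r r2 r' r'' a M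
  obtain ⟨z₇, hleaf⟩ := hleaf y r r2 r' r'' a M
  refine ⟨min κ₁ (min κ₂ κ₃), max (max z₁ z₂) (max z₃ (max z₄ (max z₅ (max z₆ z₇)))),
    lt_min hκ₁ (lt_min hκ₂ hκ₃), ?_⟩
  intro J a₀ w₀ z i j D q hz hP hO hT
  obtain ⟨κ, hκ⟩ : ∃ κ, κ = min κ₁ (min κ₂ κ₃) := ⟨_, rfl⟩
  rw [← hκ] at hO hT
  have k1 : κ ≤ κ₁ := by rw [hκ]; exact min_le_left _ _
  have k2 : κ ≤ κ₂ := by rw [hκ]; exact (min_le_right _ _).trans (min_le_left _ _)
  have k3 : κ ≤ κ₃ := by rw [hκ]; exact (min_le_right _ _).trans (min_le_right _ _)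
  have hq := hO.isLaw
  have hpth := hpth J a₀ w₀ z D q (by omega) (Pool.P4.ok2_mono hO k1) (Pool.P4.tmu_mono hT k1)
  have hcfr := hcfr J a₀ w₀ z D q (by omega) (Pool.P4.ok2_mono hO k2) (Pool.P4.tmu_mono hT k2)
  have hfra := hfra J a₀ w₀ z κ D q (by omega) k3 hO
  have hi : i ≤ M := by have := hP.i2; omega
  have hi' : i < M := by have := hP.i2; omega
  have hj : j < M := by have := hP.j2; omega
  -- the good event
  obtain ⟨E, hE⟩ : ∃ E : D.Ω → Prop, E = fun ω => 0 < q ω ∧ GoodS D n K' w₀ z M C ω := ⟨_, rfl⟩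
  have hEd : ∀ ω, E ω → 0 < q ω ∧ GoodS D n K' w₀ z M C ω := fun ω h => by rwa [hE] at h
  -- the frames
  have hex : ∀ v : D.Γ × D.Γ, ∃ P : ℕ → PN, TriN P ∧ (∀ l, (P l).totalDegree ≤ K') ∧
      ∀ ω, E ω → bb D i j r ω = v → FrP D n K' z i j r C P ω := by
    intro v
    by_cases hv : ∃ ω, E ω ∧ bb D i j r ω = v
    · obtain ⟨ω₀, hω₀, hb₀⟩ := hv
      obtain ⟨P, p1, p2, _, p4⟩ := (hEd ω₀ hω₀).2.fc
      refine ⟨P, p1, p2, fun ω hω hb => ⟨p1, p2, fun i₁ hi₁ l hl => ?_⟩⟩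
      have hbb : bb D i j r ω = bb D i j r ω₀ := hb.trans hb₀.symm
      have e1 : D.c i j ω = D.c i j ω₀ := congrArg Prod.fst hbb
      have e2 : D.c (i - 1) (j - r) ω = D.c (i - 1) (j - r) ω₀ := congrArg Prod.snd hbb
      have e3 := Pool.P4.det_c hO hi hj.le hi₁ ω ω₀ (hEd ω hω).1 (hEd ω₀ hω₀).1 e1
      have e4 := Pool.P4.det_c hO (by omega : i - 1 ≤ M) (by omega : j - r ≤ M)
        (Nat.sub_le_sub_right hi₁ 1) ω ω₀ (hEd ω hω).1 (hEd ω₀ hω₀).1 e2
      have e5 : D.Φ i₁ j ω = D.Φ i₁ j ω₀ := by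
        unfold NDat2.Φ
        rw [e3]
      have e6 : D.Φ (i₁ - 1) (j - r) ω = D.Φ (i₁ - 1) (j - r) ω₀ := by
        unfold NDat2.Φ
        rw [e4]
      rw [e5, e6]
      exact ⟨p4 i₁ (by omega) j hj l hl, p4 (i₁ - 1) (by omega) (j - r) (by omega) l hl⟩
    · refine ⟨fun _ => 0, fun i => ?_, fun l => ?_, fun ω hω hb => absurd ⟨ω, hω, hb⟩ hv⟩
      · rw [vars_0]
        exact Finset.empty_subset _
      · rw [totalDegree_zero]
        exact Nat.zero_le _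
  choose P hPt hPd hPf using hex
  have hFr : ∀ ω, E ω → FrP D n K' z i j r C (P (bb D i j r ω)) ω := fun ω hω =>
    hPf _ ω hω rfl
  have hG : ∀ ω, E ω → 0 < q ω ∧ GoodS D n K' w₀ z M C ω ∧
      FrP D n K' z i j r C (P (bb D i j r ω)) ω :=
    fun ω hω => ⟨(hEd ω hω).1, (hEd ω hω).2, hFr ω hω⟩
  obtain ⟨S, hS, hS0, hsh, hpair⟩ := hown J a₀ w₀ z i j D q κ (by omega) hP hO P E hG
  have hdep := hdep J a₀ w₀ z i j D q κ (by omega) hP hO P E hG
  have hlin : ∀ ω, E ω → _ := fun ω hω =>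
    hlin J a₀ w₀ z i j D q κ (by omega) hP hO (P (bb D i j r ω)) ω (hEd ω hω).1 (hEd ω hω).2
      (hFr ω hω)
  have hp0 : (0 : ℝ) ≤ 2 ^ (y * z) := by positivity
  obtain ⟨El, Ev, hEl, hEv, hE0, hlf⟩ := hleaf J a₀ w₀ z i j D q κ (by omega) hP hO P E S
    (fun ω hω => ⟨(hEd ω hω).1, (hEd ω hω).2.mono hL1, (hFr ω hω).mono hL1⟩)
    (fun ω u k => (hS ω u k).trans (exp_mz hL2 z)) hS0 (fun ω hω => (hsh ω hω).mono hL2)
    (fun ω ω' hω hω' hb hT' hs u hu k hk => ((hpair ω ω' hω hω' hb hT').2 hs u hu k hk).trans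
      (div_le_div_of_nonneg_right (exp_mz hL2 z) hp0))
  -- constants
  have hz0 : (0 : ℝ) ≤ z := Nat.cast_nonneg z
  have x0 : exp (C * z) ≤ exp (Cg * z) := exp_mz hg1 z
  have x1 : exp (C' * z) ≤ exp (Cg * z) := exp_mz hg2 z
  have x2 : exp (C'' * z) ≤ exp (Cg * z) := exp_mz hg3 z
  have x4 : exp (Cd * z) ≤ exp (Cg * z) := exp_mz hg4 z
  have x5 : exp (C3 * z) ≤ exp (Cg * z) := exp_mz hg5 z
  have y1 : exp (C' * z) / 2 ^ (y * z) ≤ exp (Cg * z) / 2 ^ (y * z) :=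
    div_le_div_of_nonneg_right x1 hp0
  have y2 : exp (C'' * z) / 2 ^ (y * z) ≤ exp (Cg * z) / 2 ^ (y * z) :=
    div_le_div_of_nonneg_right x2 hp0
  have y5 : exp (C3 * z) / 2 ^ (y * z) ≤ exp (Cg * z) / 2 ^ (y * z) :=
    div_le_div_of_nonneg_right x5 hp0
  have hCg0 : 0 ≤ Cg := hC0.trans hg1
  refine ⟨E, P, ⟨S, El, Ev⟩, ?_, fun ω hω => ⟨(hEd ω hω).1, (hEd ω hω).2.mono hg1,
    (hFr ω hω).mono hg1⟩, ?_, dep_le hdep hg4⟩
  · -- the probability
    have a1 : Pb q (fun ω => ¬ E ω) ≤ Pb q (fun ω => ¬ PthC D n w₀ z M 1 ω) +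
        Pb q (fun ω => ¬ FraC D n Kc M z Cc ω) + Pb q (fun ω => ¬ Fra D n Kf M z Cf ω) := by
      refine Pool.P4.pb_cover hq.nonneg fun ω b4 b5 => ?_
      by_contra hcon
      rw [not_or, not_or, not_not, not_not, not_not] at hcon
      obtain ⟨b1, b2, b3⟩ := hcon
      refine b5 ?_
      rw [hE]
      exact ⟨b4, ⟨Pool.P4.FraC.monoK b2 (by rw [hK']; exact le_max_left _ _)
        (by rw [hC]; exact le_max_left _ _),
        b3.mono (by rw [hK']; exact le_max_right _ _) (by rw [hC]; exact le_max_right _ _), b1⟩⟩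
    linarith
  · exact
      { tri := hPt
        deg := hPd
        near := fun ω _ hω i₁ hi₁ l hl => by
          have := (hFr ω hω).near i₁ hi₁ l hl
          exact ⟨this.1.trans (div_le_div_of_nonneg_right x0 (by positivity)),
            this.2.trans (div_le_div_of_nonneg_right x0 (by positivity))⟩
        bz := fun ω _ hω l h1 hl => ((hlin ω hω).1 l h1 hl).trans x1
        bt := fun ω _ hω l h1 hl w hw1 hw2 => by
          have := ((hlin ω hω).2 w hw1 hw2).1 l h1 hl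
          exact ⟨this.1.trans x1, this.2.1.trans x1, this.2.2.trans x1⟩
        bS := fun ω u k => (hS ω u k).trans x2
        bEl := fun ω u k => (hEl ω u k).trans x5
        bEv := fun ω u k w hw => (hEv ω u k w hw).trans x5
        tS := fun ω _ _ u k h => hS0 ω u k h
        tE := fun ω _ _ u k h => hE0 ω u k h
        slow0 := fun ω _ hω l hl w hw1 hw2 => by
          have := ((hlin ω hω).2 w hw1 hw2).2.1 l hl
          exact ⟨this.1.trans y1, this.2.1.trans y1, this.2.2.trans y1⟩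
        slow1 := fun ω _ hω l hl w hw1 hw2 => by
          have := ((hlin ω hω).2 w hw1 hw2).2.2.1 l hl
          exact ⟨this.1.trans y1, this.2.trans y1⟩
        grp := fun ω _ hω l hl w hw1 hw2 =>
          (((hlin ω hω).2 w hw1 hw2).2.2.2.1 l hl).trans y1
        left := fun ω ω' _ hq' hω hω' hbb hc w hw1 hw2 hT => by
          have h5 := (((hlin ω hω).2 w hw1 hw2).2.2.2.2 ω' hq' (hEd ω' hω').2 hbb hT).1 hc
          have h6 := h5.1
          have h7 := h5.2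
          refine ⟨fun l hl => ?_, fun l hl => ?_⟩
          · rw [z0_cst hbb, b1_cst hbb]
            exact ⟨(h6 l hl).1.trans y1, (h6 l hl).2.trans y1⟩
          · rw [b1_cst hbb, b2_cst hbb]
            exact ⟨(h7 l hl).1.trans y1, (h7 l hl).2.trans y1⟩
        left2 := fun ω ω' _ hq' hω hω' hbb hc w hw1 hw2 hT => by
          have h5 := (((hlin ω hω).2 w hw1 hw2).2.2.2.2 ω' hq' (hEd ω' hω').2 hbb hT).2.1 hc
          refine ⟨fun l hl => ?_, fun l hl => ?_, fun l hl => ?_⟩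
          · rw [z0_cst hbb]
            exact (h5.1 l hl).trans y1
          · rw [b1_cst hbb]
            exact (h5.2.1 l hl).trans y1
          · rw [b2_cst hbb]
            exact (h5.2.2 l hl).trans y1
        left3 := fun ω ω' _ hq' hω hω' hbb hc w hw1 hw2 hT l hl1 hl => by
          have h5 := (((hlin ω hω).2 w hw1 hw2).2.2.2.2 ω' hq' (hEd ω' hω').2 hbb hT).2.2 hc l
            hl1 hl
          rw [z0_cst hbb, b1_cst hbb, b2_cst hbb]
          exact ⟨h5.1.trans y1, h5.2.1.trans y1, h5.2.2.trans y1⟩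
        right := fun ω ω' _ _ hω hω' hbb hT hs u hu => by
          have h5 := (hpair ω ω' hω hω' hbb hT).1 hs u hu
          exact ⟨h5.1.trans y2, fun k hk => (h5.2 k hk).trans y2⟩
        right2 := fun ω ω' _ _ hω hω' hbb hT hs =>
          ⟨fun u hu k hk => ((hpair ω ω' hω hω' hbb hT).2 hs u hu k hk).trans y2,
            fun l hl k hk => ((hlf ω ω' hω hω' hbb hT).1 hs l hl k hk).trans y5⟩
        right3 := fun ω ω' _ _ hω hω' hbb hT hc u hu k hk w hw1 _ =>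
          ((hlf ω ω' hω hω' hbb hT).2.1 hc u hu k hk w hw1).trans y5
        leaf := fun ω ω' _ _ hω hω' hbb hT hc =>
          ⟨fun l hl => (((hlf ω ω' hω hω' hbb hT).2.2 hc).1 l hl).trans y5,
            fun u hu w hw1 hw2 => (((hlf ω ω' hω hω' hbb hT).2.2 hc).2 u hu w hw1 hw2).trans y5⟩
        sheet := fun ω _ hω Bx hBx b hb0 hb hbu u hu => by
          refine (hsh ω hω Bx hBx b hb0 hb hbu u hu).trans ?_
          have e1 : exp (C'' * Bx * z) ≤ exp (Cg * Bx * z) := exp_le_exp.2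
            (mul_le_mul_of_nonneg_right (mul_le_mul_of_nonneg_right hg3 (by linarith)) hz0)
          have e2 : (1 : ℝ) ≤ exp (Cg * z) := one_le_exp (by positivity)
          rw [← mul_div_assoc]
          refine div_le_div_of_nonneg_right (e1.trans ?_) hp0
          exact le_mul_of_one_le_right (exp_pos _).le e2
        toV := fun ω ω' q1 q2 hω hω' hbb hT l hl1 hl δ hδ h =>
          (hdep.toV i le_rfl hi' ω ω' q1 q2 hω hω' hbb (congrArg Prod.fst hbb) hT l hl1 hl δ hδ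
            h).trans (mul_le_mul_of_nonneg_right x4 hδ)
        ofV := fun ω ω' q1 q2 hω hω' hbb hT l hl1 hl δ hδ h =>
          (hdep.ofV i le_rfl hi' ω ω' q1 q2 hω hω' hbb (congrArg Prod.fst hbb) hT l hl1 hl δ hδ
            h).trans (mul_le_mul_of_nonneg_right x4 hδ) }

end Pool.P5
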