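import Pool.Agent.H12.P5.Stm
import Pool.Agent.H35.P4.Tm

/-!
# P5: the time of the picture

`tf_stmt`: the time is full. `tm_stmt`: in one of the windows two times of a line are not near.
-/

set_option autoImplicit false

namespace Pool.P5

open Finset Real
open Pool.Agent.H49.Ent Pool.Agent.H32.Dense Pool.STK Pool.KAF Pool.STAT Pool.TMU
open Pool.BFL (Pb P2)
open Pool.OCG (nr)
open Pool.P4T (end_le tq_eq tq_near Pb_two det_bb det_cb P2_near)

section

variable {n K J a₀ w₀ z M : ℕ} {lam gam : ℕ → ℝ} {κ C₁ : ℝ} {D : NDat2} {q : D.Ω → ℝ}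

/-- The line of the picture is a function of the line and of the window. -/
theorem det_line (hO : D.Ok2 n K J a₀ w₀ z M lam gam κ C₁ q) {i j r w X c k0 k1 : ℕ} {C : ℝ}
    {P : D.Γ × D.Γ → ℕ → PN} {S : Slo D} {ys : Fin (k0 + k1) → ℕ} {gs : Fin c → ℕ}
    (hi : i ≤ M) (hj : j ≤ M) (hw : w₀ + j * z ≤ w) (hw' : w ≤ J) :
    Det q (D.wn J w) (qh (c := c) (k0 := k0) (k1 := k1) D J w z i j r X C P S ys gs q).line := by
  intro ω ω' p1 p2 e
  have e1 : D.ln ω = D.ln ω' := (Prod.ext_iff.1 e).1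
  have e2 : D.T ω / 2 ^ (J - w) = D.T ω' / 2 ^ (J - w) := (Prod.ext_iff.1 e).2
  have e3 : Pool.P4.bb D i j r ω = Pool.P4.bb D i j r ω' := det_bb hO hi hj hw hw' ω ω' p1 p2 e
  have e4 : Pool.P4.cb D J w i j r ω = Pool.P4.cb D J w i j r ω' :=
    det_cb hO hi hj hw hw' ω ω' p1 p2 e
  have e5 : Pool.P4.t0 D J w ω = Pool.P4.t0 D J w ω' := by
    unfold Pool.P4.t0
    rw [e2]
  have e6 : ∀ t l, Pool.P4.zt D i j r P t ω l = Pool.P4.zt D i j r P t ω' l := by
    intro t l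
    unfold Pool.P4.zt
    rw [e1, e3]
  have e7 : ∀ l, Pool.P4.z0 D J w i j r P ω l = Pool.P4.z0 D J w i j r P ω' l := by
    intro l
    unfold Pool.P4.z0
    rw [e5, e6]
  have e8 : ∀ l, b2 D J w i j r P ω l = b2 D J w i j r P ω' l := by
    intro l
    unfold b2
    rw [e5, e6, e6, e7]
  have e9 : ∀ l, b1 D J w i j r P ω l = b1 D J w i j r P ω' l := by
    intro l
    unfold b1 Pool.P4.be
    rw [e5, e6, e7, e8]
  have f1 : nuv (c := c) D J w z i j r X C P gs ω = nuv (c := c) D J w z i j r X C P gs ω' := by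
    funext u
    unfold nuv
    rw [e7]
  have f2 : yv (k0 := k0) (k1 := k1) D J w z i j r X C P ys ω =
      yv (k0 := k0) (k1 := k1) D J w z i j r X C P ys ω' := by
    funext u
    unfold yv
    rw [e7]
  have f3 : mv (k0 := k0) (k1 := k1) D J w z i j r X C P ys ω =
      mv (k0 := k0) (k1 := k1) D J w z i j r X C P ys ω' := by
    funext u
    unfold mv
    rw [e9]
  have f4 : bev (c := c) D J w z i j r X C P gs ω = bev (c := c) D J w z i j r X C P gs ω' := by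
    funext u
    unfold bev
    rw [e9]
  have f5 : be2v (c := c) D J w z i j r X C P gs ω =
      be2v (c := c) D J w z i j r X C P gs ω' := by
    funext u
    unfold be2v
    rw [e8]
  exact Prod.ext f1 (Prod.ext (Prod.ext e4 (Prod.ext f2 (Prod.ext f3 (Prod.ext f4 f5)))) e4)

end

/-- **(TF)** The time is full. -/
theorem tf_stmt : TFStmt := by
  intro n K K' c k0 k1 C₁ C
  refine ⟨1, zero_le_one, ?_⟩
  intro D J a₀ w₀ z M w i j r r2 r' r'' y a X lam gam κ q E P S ys gs H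
  have hO := H.ok
  have hq := hO.isLaw
  have hend := end_le hO
  obtain ⟨x, hx, hix⟩ := H.Xz
  have i2 := H.i2
  have j2 := H.j2
  have w1 := H.w1
  have w2 := H.w2
  have h1 : (j + 1) * z ≤ (M + 1) * z := Nat.mul_le_mul_right z (by omega)
  have h2 : x * z ≤ (M + 1) * z := Nat.mul_le_mul_right z (by omega)
  have hwX : w + X ≤ J := by omega
  have hU := H.tmu
  unfold NDat2.TmU at hU
  have hww : w₀ ≤ w := by omega
  have g1 := CH_low hq D.T D.ln hww (by omega) hO.ln_w hU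
  have g2 := CH_le_add hq.nonneg D.T (fun ω => Pool.P4.tq J w X (D.T ω))
    (fun ω => (D.ln ω, D.T ω / 2 ^ (J - w)))
  have g3 : CH q D.T (fun ω => (Pool.P4.tq J w X (D.T ω), (D.ln ω, D.T ω / 2 ^ (J - w)))) ≤
      ((J - (w + X) : ℕ) : ℝ) * Real.log 2 := by
    refine CH_win' hq D.T _ hwX ?_
    intro ω ω' _ _ e
    simp only [Prod.mk.injEq] at e
    obtain ⟨e3, _, e2⟩ := e
    change D.T ω / 2 ^ (J - (w + X)) = D.T ω' / 2 ^ (J - (w + X))
    rw [tq_eq hwX, tq_eq hwX, e3, e2]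
  have g4 : CH q (fun ω => Pool.P4.tq J w X (D.T ω))
      (fun ω => (D.ln ω, D.T ω / 2 ^ (J - w))) ≤
      CH q (fun ω => Pool.P4.tq J w X (D.T ω)) (Pool.P4.cb D J w i j r) :=
    CH_mono_cond hq.nonneg (det_cb hO (by omega) (by omega) w1 (by omega))
  have g5 : ((J - w : ℕ) : ℝ) = ((J - (w + X) : ℕ) : ℝ) + X := by
    rw [← Nat.cast_add]
    congr 1
    omega
  rw [g5, add_mul] at g1
  unfold Pool.P4.err
  have hb : 0 ≤ (X : ℝ) * Pb q (fun ω => ¬ E ω) := by
    refine mul_nonneg (Nat.cast_nonneg _) ?_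
    unfold Pb
    refine Finset.sum_nonneg fun ω _ => ?_
    split_ifs
    · exact hq.nonneg ω
    · exact le_rfl
  have hz0 : (0 : ℝ) ≤ z := Nat.cast_nonneg z
  rw [one_mul]
  linarith

/-- **(TM)** In one of the windows two times of a line are not near. -/
theorem tm_stmt : TMStmt := by
  intro η hη
  obtain ⟨k', hk'⟩ : ∃ k' : ℕ, k' = ⌈64 / η⌉₊ + 1 := ⟨_, rfl⟩
  have hk1 : 1 ≤ k' := by omega
  have hk0 : (0 : ℝ) < k' := by exact_mod_cast hk1
  have hk2 : 64 / η ≤ (k' : ℝ) := by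
    rw [hk']
    push_cast
    have := Nat.le_ceil (64 / η)
    linarith
  refine ⟨1 / 2 ^ (k' + 1), by positivity, ?_⟩
  intro n K K' M c k0 k1 C₁ C
  obtain ⟨z₀, hz₀⟩ : ∃ z₀ : ℕ, z₀ = max (k' + 1) ⌈16 * k' / η⌉₊ := ⟨_, rfl⟩
  refine ⟨η / 32, z₀, by positivity, ?_⟩
  intro D J a₀ w₀ z i j r X lam gam κ q P S ys gs hκ hz hzX hXM hi hr hj hO hU
  have hq := hO.isLaw
  have hend := end_le hO
  have hz1 : k' + 1 ≤ z := (le_max_left _ _).trans (hz₀ ▸ hz)
  have hz2 : 16 * (k' : ℝ) / η ≤ z := by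
    refine (Nat.le_ceil _).trans ?_
    exact_mod_cast (le_max_right _ _).trans (hz₀ ▸ hz)
  have hzr : (0 : ℝ) < z := by
    have : 0 < z := by omega
    exact_mod_cast this
  have h1 : (j + 1) * z ≤ (M + 1) * z := Nat.mul_le_mul_right z (by omega)
  have h1' : (j + 1) * z = j * z + z := by ring
  have h2 : M * z ≤ (M + 1) * z := Nat.mul_le_mul_right z (by omega)
  obtain ⟨wj, hwj⟩ : ∃ wj, wj = w₀ + j * z := ⟨_, rfl⟩
  have hwx : wj + z ≤ J := by omega
  unfold NDat2.TmU at hU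
  -- the sum over the scales
  have hsum : ∑ u ∈ range z, nr q (fun ω => (D.ln ω, D.T ω / 2 ^ (J - wj))) (th D.T J wj) k' u ≤
      κ * z / Real.log 2 + 4 * z / k' + k' :=
    Pool.TML.tm_full hq _ _ (th_mem D.T J wj) hk1 (full_tl hq (by omega) hwx hO.ln_w hU)
  have hl2 : 1 / 2 ≤ Real.log 2 := by linarith [Real.log_two_gt_d9]
  have hb1 : κ * z / Real.log 2 ≤ η / 16 * z := by
    rw [div_le_iff₀ (by linarith)]
    have e1 : κ * (z : ℝ) ≤ η / 32 * z := mul_le_mul_of_nonneg_right hκ hzr.le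
    have e2 : 0 ≤ η / 16 * z := by positivity
    nlinarith
  have hb2 : 4 * (z : ℝ) / k' ≤ η / 16 * z := by
    rw [div_le_iff₀ hη] at hk2
    rw [div_le_iff₀ hk0]
    have : 64 * (z : ℝ) ≤ k' * η * z := mul_le_mul_of_nonneg_right hk2 hzr.le
    nlinarith
  have hb3 : (k' : ℝ) ≤ η / 16 * z := by
    rw [div_le_iff₀ hη] at hz2
    linarith
  have hex : ∃ u < z, nr q (fun ω => (D.ln ω, D.T ω / 2 ^ (J - wj))) (th D.T J wj) k' u ≤
      η / 4 := by
    by_contra hcon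
    push Not at hcon
    have e1 : ∑ u ∈ range z, η / 4 ≤
        ∑ u ∈ range z, nr q (fun ω => (D.ln ω, D.T ω / 2 ^ (J - wj))) (th D.T J wj) k' u :=
      Finset.sum_le_sum fun u hu => (hcon u (mem_range.1 hu)).le
    rw [Finset.sum_const, card_range, nsmul_eq_mul] at e1
    have e2 : 0 < η * z := by positivity
    linarith
  obtain ⟨u, hu, hnr⟩ := hex
  have hnear := (P2_le_nr (p := q) (T := D.T) (L := D.ln) (k' := k') hq.nonneg
    (show wj + u ≤ J by omega)).trans hnr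
  obtain ⟨w, hw⟩ : ∃ w, w = wj + u := ⟨_, rfl⟩
  rw [← hw] at hnear
  refine ⟨w, by omega, by omega, ?_⟩
  have hwX : w + X ≤ J := by omega
  have hdl := det_line (r := r) (X := X) (C := C) (P := P) (S := S) (ys := ys) (gs := gs)
    hO hi (show j ≤ M by omega) (show w₀ + j * z ≤ w by omega) (show w ≤ J by omega)
  have hkX : k' + 1 ≤ X := by omega
  have key := P2_near hq.nonneg (D.wn J w) _ hdl (fun ω => Pool.P4.tq J w X (D.T ω))
    (2 ^ (X - (k' + 1))) (by positivity)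
  have key2 : P2 q (D.wn J w) (fun ω ω' => |((Pool.P4.tq J w X (D.T ω) : ℤ) -
      Pool.P4.tq J w X (D.T ω') : ℤ)| < 2 * (2 ^ (X - (k' + 1)) : ℕ)) ≤ η / 4 := by
    refine (P2_le_of hq.nonneg (fun _ _ _ _ e => e) (fun _ _ _ _ e => e)
      (fun ω ω' _ _ e hA => ?_)).trans hnear
    refine tq_near hwX (by omega) (Prod.ext_iff.1 e).2 ?_
    have e1 : (2 : ℤ) ^ (X - k') = 2 * (2 ^ (X - (k' + 1)) : ℕ) := by
      push_cast
      rw [← pow_succ']
      congr 1
      omega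
    rw [e1]
    exact hA
  unfold Pool.QT64.QH.TM
  refine (le_of_eq (Pb_two (Ω := D.Ω) (p := q) hq.nonneg
    (qh (c := c) (k0 := k0) (k1 := k1) D J w z i j r X C P S ys gs q).line (fun ω ω' =>
    |(((qh (c := c) (k0 := k0) (k1 := k1) D J w z i j r X C P S ys gs q).tau
        ((qh (c := c) (k0 := k0) (k1 := k1) D J w z i j r X C P S ys gs q).th ω) -
      (qh (c := c) (k0 := k0) (k1 := k1) D J w z i j r X C P S ys gs q).tau
        ((qh (c := c) (k0 := k0) (k1 := k1) D J w z i j r X C P S ys gs q).th ω') : ℤ) : ℝ)| ≤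
      1 / 2 ^ (k' + 1) * 2 ^ X))).trans ?_
  refine (P2_le_of hq.nonneg (fun _ _ _ _ e => e) (fun _ _ _ _ e => e)
    (fun ω ω' _ _ _ hA => ?_)).trans (key.trans (by linarith))
  have e1 : (1 : ℝ) / 2 ^ (k' + 1) * 2 ^ X = (((2 ^ (X - (k' + 1)) : ℕ) : ℤ) : ℝ) := by
    push_cast
    rw [div_mul_eq_mul_div, one_mul, div_eq_iff (by positivity), ← pow_add]
    congr 1
    omega
  rw [e1, ← Int.cast_abs, Int.cast_le] at hA
  exact hA

end Pool.P5
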